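import Pool.Agent.helper80.HM.SpecA

/-!
# Row `hm:STG` (MP_069684_lc)

The stages.
-/

set_option autoImplicit false

namespace Pool.Agent.HM

open Finset Pool.Agent.helper33.Mod

theorem STG_blk {M : ℕ} {V T : Finset (Fin M)} {U : ℕ → ℕ → Finset (Fin M)} {z N : ℕ}
    (h : Blk V T U (z + 1) N) : Blk V T U z N :=
  ⟨fun i hi b hb => h.sub i (by omega) b hb, fun i hi b hb => h.dis i (by omega) b hb,
    fun i hi b hb i' hi' b' hb' hne => h.prs i (by omega) b hb i' (by omega) b' hb' hne⟩

theorem STG_mixcongr {M c : ℕ} {D : Finset (Fin M)} {h0 h h' : Fin M → Fin c}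
    (he : ∀ v ∈ D, h v = h' v) : mix D h0 h = mix D h0 h' := by
  funext v
  by_cases hv : v ∈ D
  · rw [mix_mem hv, mix_mem hv, he v hv]
  · rw [mix_not_mem hv, mix_not_mem hv]

theorem STG_zero {M c : ℕ} {m : Inp M → Bool} (hm : Monotone m) {β' : Inp M}
    (h : m β' = true) (G : (Fin M → Fin c) → Inp M) :
    cn (fun h : Fin M → Fin c => m (orI (G h) β') = false) = 0 := by
  apply cn_eq_zero
  intro x hx
  have h1 := mono_true hm (le_orI_right (G x) β') h
  rw [h1] at hx
  exact absurd hx (by simp)

theorem STG (hPRD : PRD_stmt) (hSTA : STA_stmt) : STG_stmt := by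
  intro M c r N g m V T U β z hc hg hm hgm hTV
  have hcM : (0 : ℝ) ≤ (1 / 4) ^ N * (c : ℝ) ^ M := by positivity
  induction z with
  | zero =>
    intro _ _ h0 _ β' hβ hcard
    have h1 : ∀ j, g j β' = true := by
      intro j
      by_contra hj
      rw [Bool.not_eq_true] at hj
      have : j ∈ univ.filter fun j => g j β' = false := by simp [hj]
      have h2 := card_pos.2 ⟨j, this⟩
      omega
    rw [STG_zero hm (hgm β' hβ h1)]
    simp
  | succ z ih =>
    intro hB hG h0 hI β' hβ hcard
    by_cases hmt : m β' = true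
    · rw [STG_zero hm hmt]
      positivity
    rw [Bool.not_eq_true] at hmt
    have hzz : z < z + 1 := Nat.lt_succ_self z
    have hex : ∀ b (hb : b < N), ∃ j, g j β' = false ∧
        cn (fun h : Fin M → Fin c =>
          g j (orI (gV (U z b ∪ T) (mix (U z b) h0 h)) β') = false) ≤ 1 / 4 * (c : ℝ) ^ M :=
      fun b hb => hG z hzz b hb h0 hI β' hβ hmt
    choose jb hjb1 hjb2 using hex
    let Pb : ℕ → (Fin M → Fin c) → Prop := fun b h =>
      ∃ hb : b < N, g (jb b hb) (orI (gV (U z b ∪ T) (mix (U z b) h0 h)) β') = false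
    have hdisj : ∀ i < N, ∀ j < N, i ≠ j → Disjoint (U z i) (U z j) := by
      intro i hi j hj hij
      exact hB.prs z hzz i hi z hzz j hj (fun h => hij (by simpa using h))
    have hPdep : ∀ b < N, Dep (U z b) (Pb b) := by
      intro b hb h h' he
      show (∃ hb : b < N, _) ↔ (∃ hb : b < N, _)
      rw [STG_mixcongr he]
    have hPcn : ∀ b < N, cn (Pb b) ≤ 1 / 4 * (c : ℝ) ^ M := by
      intro b hb
      refine le_trans (cn_mono ?_) (hjb2 b hb)
      rintro h ⟨hb', h1⟩
      exact h1
    have hbad := hPRD (U z) Pb N hc hdisj hPdep hPcn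
    set D1 : Finset (Fin M) := (range N).biUnion (U z) with hD1
    set D2 : Finset (Fin M) := DD U z N with hD2
    have hD1T : ∀ v ∈ T, v ∉ D1 := by
      intro v hv hv1
      rw [hD1, mem_biUnion] at hv1
      obtain ⟨b, hb, hvb⟩ := hv1
      exact (disjoint_left.1 (hB.dis z hzz b (mem_range.1 hb))) hvb hv
    have hD2T : ∀ v ∈ T, v ∉ D2 := by
      intro v hv hv1
      rw [hD2, DD, mem_biUnion] at hv1
      obtain ⟨i, hi, hv1⟩ := hv1
      rw [mem_biUnion] at hv1
      obtain ⟨b, hb, hvb⟩ := hv1
      have hi' := mem_range.1 hi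
      exact (disjoint_left.1 (hB.dis i (by omega) b (mem_range.1 hb))) hvb hv
    have hUD2 : ∀ b < N, ∀ v ∈ U z b, v ∉ D2 := by
      intro b hb v hv hv1
      rw [hD2, DD, mem_biUnion] at hv1
      obtain ⟨i, hi, hv1⟩ := hv1
      rw [mem_biUnion] at hv1
      obtain ⟨b', hb', hvb⟩ := hv1
      have hi' := mem_range.1 hi
      have hne : (z, b) ≠ (i, b') := by
        intro h
        have := congrArg Prod.fst h
        simp only at this
        omega
      exact (disjoint_left.1 (hB.prs z hzz b hb i (by omega) b' (mem_range.1 hb') hne)) hv hvb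
    have hD12 : Disjoint D1 D2 := by
      rw [disjoint_left]
      intro v hv
      rw [hD1, mem_biUnion] at hv
      obtain ⟨b, hb, hvb⟩ := hv
      exact hUD2 b (mem_range.1 hb) v hvb
    have hDD : DD U (z + 1) N = D1 ∪ D2 := by
      rw [hD2, DD, DD, range_add_one, biUnion_insert, hD1]
    have hDep : Dep D1 (fun h => ∀ b < N, Pb b h) := by
      intro h h' he
      have h1 : ∀ b < N, (Pb b h ↔ Pb b h') := by
        intro b hb
        apply hPdep b hb
        intro v hv
        apply he
        rw [hD1, mem_biUnion]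
        exact ⟨b, mem_range.2 hb, hv⟩
      constructor
      · intro h2 b hb
        exact (h1 b hb).1 (h2 b hb)
      · intro h2 b hb
        exact (h1 b hb).2 (h2 b hb)
    have hε : (0 : ℝ) ≤ z * ((1 / 4) ^ N * (c : ℝ) ^ M) := by positivity
    have hmain := hSTA D1 D2
      (fun h => m (orI (gV V (mix (DD U (z + 1) N) h0 h)) β') = false)
      (fun h => ∀ b < N, Pb b h) (z * ((1 / 4) ^ N * (c : ℝ) ^ M)) hc hε hD12 hDep ?_
    · refine hmain.trans ?_
      push_cast
      linarith [hbad]
    · intro h1 hnb
      have hnb' : ∃ b, ∃ hb : b < N, ¬ Pb b h1 := by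
        by_contra hcon
        push Not at hcon
        exact hnb hcon
      obtain ⟨b, hb, hPb⟩ := hnb'
      have hgt : g (jb b hb) (orI (gV (U z b ∪ T) (mix (U z b) h0 h1)) β') = true := by
        by_contra hcon
        rw [Bool.not_eq_true] at hcon
        exact hPb ⟨hb, hcon⟩
      set β'' : Inp M := orI (gV (U z b ∪ T) (mix (U z b) h0 h1)) β' with hβ''
      have hβ1 : β' ≤ β'' := le_orI_right _ _
      have hcard' : (univ.filter fun j => g j β'' = false).card ≤ z := by
        have hsub : (univ.filter fun j => g j β'' = false) ⊆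
            (univ.filter fun j => g j β' = false).erase (jb b hb) := by
          intro j hj
          rw [mem_filter] at hj
          rw [mem_erase, mem_filter]
          refine ⟨?_, mem_univ _, mono_false (hg j) hβ1 hj.2⟩
          intro hjj
          rw [hjj, hgt] at hj
          exact absurd hj.2 (by simp)
        have h2 := card_le_card hsub
        have hmem : jb b hb ∈ univ.filter fun j => g j β' = false := by
          rw [mem_filter]
          exact ⟨mem_univ _, hjb1 b hb⟩
        rw [card_erase_of_mem hmem] at h2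
        omega
      have hI' : Inj (mix D1 h0 h1) T := by
        refine (inj_congr ?_).2 hI
        intro v hv
        exact mix_not_mem (hD1T v hv)
      have hih := ih (STG_blk hB) (fun i hi b hb => hG i (by omega) b hb) (mix D1 h0 h1) hI' β''
        (hβ.trans hβ1) hcard'
      refine le_trans (cn_mono ?_) hih
      intro h2 hP
      have hmix : mix D2 (mix D1 h0 h1) h2 = mix (DD U (z + 1) N) h0 (mix D2 h1 h2) := by
        rw [hDD]
        exact mix_mix D1 D2 h0 h1 h2
      have hle : orI (gV V (mix (DD U z N) (mix D1 h0 h1) h2)) β'' ≤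
          orI (gV V (mix (DD U (z + 1) N) h0 (mix D2 h1 h2))) β' := by
        rw [← hmix]
        refine orI_le (le_orI_left _ _) ?_
        rw [hβ'']
        refine orI_mono ?_ le_rfl
        refine gV_le (union_subset (hB.sub z hzz b hb) hTV) ?_
        intro v hv
        by_cases hvU : v ∈ U z b
        · have hv1 : v ∈ D1 := by
            rw [hD1, mem_biUnion]
            exact ⟨b, mem_range.2 hb, hvU⟩
          rw [mix_mem hvU, mix_not_mem (hUD2 b hb v hvU), mix_mem hv1]
        · have hvT : v ∈ T := by
            rcases mem_union.1 hv with h | h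
            · exact absurd h hvU
            · exact h
          rw [mix_not_mem hvU, mix_not_mem (hD2T v hvT), mix_not_mem (hD1T v hvT)]
      exact mono_false hm hle hP

end Pool.Agent.HM
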